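import Pool.Agent.P.MP_1e26d1_co.Density

/-!
A lower bound for the rescaled Turan density of complete hypergraphs.
The limit defining the density exists: see `ratio_tendsto`.
-/

namespace Pool.Agent.Results.MP_1e26d1_co.RescaledLower

open Pool.Agent.P.MP_1e26d1_co

theorem result (k r : ℕ) (hr : 3 ≤ r) (hk : r ≤ k) :
    48 / 19 * (((r : ℝ) - 1) ^ (r - 1) / (r : ℝ) ^ r) ≤ rescaledDensity k r :=
  rescaled_bound hr hk

end Pool.Agent.Results.MP_1e26d1_co.RescaledLower
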