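import Pool.Agent.P.MP_1e26d1_co.UMain

/-!
The product of the uniformity and the rescaled Turan density tends to infinity,
uniformly in the clique size. The limit defining the density exists: see `ratio_tendsto`.
-/

namespace Pool.Agent.Results.MP_1e26d1_co.Unbounded

open Pool.Agent.P.MP_1e26d1_co

theorem result (C : ℝ) :
    ∃ r₀ : ℕ, ∀ r k : ℕ, r₀ ≤ r → r ≤ k → C / r ≤ rescaledDensity k r := by
  obtain ⟨r₀, h⟩ := Filter.eventually_atTop.1 (U.rescaled_ge C)
  exact ⟨r₀, fun r k hr hk => h r hr k hk⟩

end Pool.Agent.Results.MP_1e26d1_co.Unbounded
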