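import Pool.Agent.P.MP_1e26d1_co.BMain

/-!
An upper bound for the rescaled Turan density of complete 4-graphs.
The limit defining the density exists: see `ratio_tendsto`.
-/

namespace Pool.Agent.Results.MP_1e26d1_co.UpperFour

open Pool.Agent.P.MP_1e26d1_co

theorem result (k : ℕ) (hk : 200 ≤ k) : rescaledDensity k 4 ≤ 5787 / 10000 + 20 / (k : ℝ) :=
  B.rescaled_four hk

end Pool.Agent.Results.MP_1e26d1_co.UpperFour
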